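import Mathlib

/-!
# Sparsest connected graphs with perfect state transfer

`minEdges n` is the least number of edges of a connected graph on `n` vertices admitting perfect
state transfer.  We show that it is finite for every `n ≥ 2`, that it is at most `n + 4 √n` for
all large `n`, and hence (with the trivial bound `n - 1`) that it is asymptotically equivalent
to `n`.

Construction.  Two twins `u, v` are joined to four vertices of type `A` and to `q ^ 2 - 2` vertices
of type `W` (`q` odd).  The remaining vertices `L` are only adjacent to vertices of `W`, in such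
a way that for each `w` in `W` the degrees of its `L`-neighbours add up to `2 q ^ 2`.
The vector `e_u - e_v` is in the kernel, and `e_u + e_v` lies in an invariant space with
eigenvalues `2, -2, 2 q, -2 q`, so perfect state transfer takes place at time `pi / 2`.
Most vertices of `L` are leaves; a few fused ones (adjacent to the first `s` vertices of `W`)
are used to hit every value of `n`.
-/

set_option autoImplicit false

open Finset Filter

namespace Pool.Agent.Results.MP_8f05cb_co.SparsePST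

/-- `G` admits perfect state transfer: there are distinct vertices `u`, `v`, a time `t` and a
complex number `γ` of modulus one with `exp (i t A) e_u = γ e_v`. -/
def AdmitsPST {V : Type} [Fintype V] [DecidableEq V] (G : SimpleGraph V)
    [DecidableRel G.Adj] : Prop :=
  ∃ u v : V, u ≠ v ∧ ∃ (t : ℝ) (γ : ℂ), ‖γ‖ = 1 ∧
    (NormedSpace.exp ((Complex.I * (t : ℂ)) • G.adjMatrix ℂ)).mulVec (Pi.single u 1) =
      γ • Pi.single v 1

/-- The possible numbers of edges of connected graphs on `n` vertices admitting perfect state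
transfer. -/
def pstEdgeCounts (n : ℕ) : Set ℕ :=
  {e : ℕ | ∃ (V : Type) (_ : Fintype V) (_ : DecidableEq V) (G : SimpleGraph V)
    (_ : DecidableRel G.Adj),
    Fintype.card V = n ∧ G.Connected ∧ AdmitsPST G ∧ G.edgeSet.ncard = e}

/-- `m(n)`: the least number of edges of a connected graph on `n` vertices that admits perfect
state transfer, and `⊤` (infinity) if there is no such graph. -/
noncomputable def minEdges (n : ℕ) : ℕ∞ :=
  sInf ((fun e : ℕ => (e : ℕ∞)) '' pstEdgeCounts n)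

theorem pow_mulVec_of_eigen {V : Type*} [Fintype V] [DecidableEq V] (M : Matrix V V ℂ)
    (v : V → ℂ) (μ : ℂ) (h : M.mulVec v = μ • v) (n : ℕ) :
    (M ^ n).mulVec v = μ ^ n • v := by
  induction n with
  | zero => simp
  | succ n ih =>
    rw [pow_succ, ← Matrix.mulVec_mulVec, h, Matrix.mulVec_smul, ih, smul_smul, pow_succ]
    congr 1
    ring

theorem exp_mulVec_of_eigen {V : Type*} [Fintype V] [DecidableEq V] (M : Matrix V V ℂ)
    (v : V → ℂ) (μ : ℂ) (h : M.mulVec v = μ • v) :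
    (NormedSpace.exp M).mulVec v = Complex.exp μ • v := by
  open scoped Matrix.Norms.Operator in
  have h1 : HasSum (fun n : ℕ => ((n.factorial : ℂ)⁻¹) • M ^ n) (NormedSpace.exp M) :=
    NormedSpace.exp_series_hasSum_exp' M
  have h2 : HasSum (fun n : ℕ => ((n.factorial : ℂ)⁻¹) • μ ^ n) (Complex.exp μ) := by
    have := NormedSpace.exp_series_hasSum_exp' (𝕂 := ℂ) μ
    rwa [← Complex.exp_eq_exp_ℂ] at this
  funext x
  have hx : ∀ N : Matrix V V ℂ, N.mulVec v x = ∑ y, N x y * v y := fun N => rfl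
  have h3 : HasSum (fun n : ℕ => (((n.factorial : ℂ)⁻¹) • M ^ n).mulVec v x)
      ((NormedSpace.exp M).mulVec v x) := by
    simp only [hx]
    refine hasSum_sum fun y _ => ?_
    refine HasSum.mul_right (v y) ?_
    have := h1.map (f := fun n : ℕ => ((n.factorial : ℂ)⁻¹) • M ^ n)
      (⟨⟨fun N : Matrix V V ℂ => N x y, rfl⟩, fun _ _ => rfl⟩ : Matrix V V ℂ →+ ℂ)
      (by exact (continuous_apply y).comp (continuous_apply x))
    exact this
  have h4 : HasSum (fun n : ℕ => (((n.factorial : ℂ)⁻¹) • M ^ n).mulVec v x)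
      ((Complex.exp μ • v) x) := by
    have h5 := h2.mul_right (v x)
    have h6 : (fun n : ℕ => (((n.factorial : ℂ)⁻¹) • M ^ n).mulVec v x) =
        fun n : ℕ => ((n.factorial : ℂ)⁻¹) • μ ^ n * v x := by
      funext n
      rw [Matrix.smul_mulVec, pow_mulVec_of_eigen M v μ h n]
      simp only [Pi.smul_apply, smul_eq_mul]
      ring
    rw [h6]
    exact h5
  exact h3.unique h4

section Family

variable {A W L : Type}

/-- Adjacency for the family. -/
def famAdj (A : Type) (r : W → L → Prop) : (Bool ⊕ A) ⊕ (W ⊕ L) → (Bool ⊕ A) ⊕ (W ⊕ L) → Prop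
  | .inl (.inl _), .inl (.inr _) => True
  | .inl (.inr _), .inl (.inl _) => True
  | .inl (.inl _), .inr (.inl _) => True
  | .inr (.inl _), .inl (.inl _) => True
  | .inr (.inl w), .inr (.inr x) => r w x
  | .inr (.inr x), .inr (.inl w) => r w x
  | _, _ => False

def fam (A : Type) (r : W → L → Prop) : SimpleGraph ((Bool ⊕ A) ⊕ (W ⊕ L)) where
  Adj := famAdj A r
  symm := ⟨by
    rintro ((b | a) | (w | x)) ((b' | a') | (w' | x')) h <;> simp_all [famAdj]⟩
  loopless := ⟨by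
    rintro ((b | a) | (w | x)) h <;> simp_all [famAdj]⟩

theorem fam_ba (r : W → L → Prop) (b : Bool) (a : A) :
    (fam A r).Adj (Sum.inl (Sum.inl b)) (Sum.inl (Sum.inr a)) ↔ True := Iff.rfl
theorem fam_bb (r : W → L → Prop) (b b' : Bool) :
    (fam A r).Adj (Sum.inl (Sum.inl b)) (Sum.inl (Sum.inl b')) ↔ False := Iff.rfl
theorem fam_bw (r : W → L → Prop) (b : Bool) (w : W) :
    (fam A r).Adj (Sum.inl (Sum.inl b)) (Sum.inr (Sum.inl w)) ↔ True := Iff.rfl
theorem fam_bx (r : W → L → Prop) (b : Bool) (x : L) :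
    (fam A r).Adj (Sum.inl (Sum.inl b)) (Sum.inr (Sum.inr x)) ↔ False := Iff.rfl
theorem fam_ab (r : W → L → Prop) (b : Bool) (a : A) :
    (fam A r).Adj (Sum.inl (Sum.inr a)) (Sum.inl (Sum.inl b)) ↔ True := Iff.rfl
theorem fam_aa (r : W → L → Prop) (a a' : A) :
    (fam A r).Adj (Sum.inl (Sum.inr a)) (Sum.inl (Sum.inr a')) ↔ False := Iff.rfl
theorem fam_aw (r : W → L → Prop) (a : A) (w : W) :
    (fam A r).Adj (Sum.inl (Sum.inr a)) (Sum.inr (Sum.inl w)) ↔ False := Iff.rfl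
theorem fam_ax (r : W → L → Prop) (a : A) (x : L) :
    (fam A r).Adj (Sum.inl (Sum.inr a)) (Sum.inr (Sum.inr x)) ↔ False := Iff.rfl
theorem fam_wb (r : W → L → Prop) (b : Bool) (w : W) :
    (fam A r).Adj (Sum.inr (Sum.inl w)) (Sum.inl (Sum.inl b)) ↔ True := Iff.rfl
theorem fam_wa (r : W → L → Prop) (a : A) (w : W) :
    (fam A r).Adj (Sum.inr (Sum.inl w)) (Sum.inl (Sum.inr a)) ↔ False := Iff.rfl
theorem fam_ww (r : W → L → Prop) (w w' : W) :
    (fam A r).Adj (Sum.inr (Sum.inl w)) (Sum.inr (Sum.inl w')) ↔ False := Iff.rfl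
theorem fam_wx (r : W → L → Prop) (w : W) (x : L) :
    (fam A r).Adj (Sum.inr (Sum.inl w)) (Sum.inr (Sum.inr x)) ↔ r w x := Iff.rfl
theorem fam_xb (r : W → L → Prop) (b : Bool) (x : L) :
    (fam A r).Adj (Sum.inr (Sum.inr x)) (Sum.inl (Sum.inl b)) ↔ False := Iff.rfl
theorem fam_xa (r : W → L → Prop) (a : A) (x : L) :
    (fam A r).Adj (Sum.inr (Sum.inr x)) (Sum.inl (Sum.inr a)) ↔ False := Iff.rfl
theorem fam_xw (r : W → L → Prop) (w : W) (x : L) :
    (fam A r).Adj (Sum.inr (Sum.inr x)) (Sum.inr (Sum.inl w)) ↔ r w x := Iff.rfl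
theorem fam_xx (r : W → L → Prop) (x x' : L) :
    (fam A r).Adj (Sum.inr (Sum.inr x)) (Sum.inr (Sum.inr x')) ↔ False := Iff.rfl

theorem fam_connected (r : W → L → Prop) (a0 : A) (hx : ∀ x, ∃ w, r w x) :
    (fam A r).Connected := by
  have hu : ∀ y, (fam A r).Reachable (Sum.inl (Sum.inl false)) y := by
    have hb : ∀ b, (fam A r).Reachable (Sum.inl (Sum.inl false)) (Sum.inl (Sum.inl b)) := fun b =>
      ((SimpleGraph.Adj.reachable ((fam_ba r false a0).2 trivial)).trans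
        (SimpleGraph.Adj.reachable ((fam_ab r b a0).2 trivial)))
    have hw : ∀ w, (fam A r).Reachable (Sum.inl (Sum.inl false)) (Sum.inr (Sum.inl w)) := fun w =>
      SimpleGraph.Adj.reachable ((fam_bw r false w).2 trivial)
    rintro ((b | a) | (w | x))
    · exact hb b
    · exact SimpleGraph.Adj.reachable ((fam_ba r false a).2 trivial)
    · exact hw w
    · obtain ⟨w, hwx⟩ := hx x
      exact (hw w).trans (SimpleGraph.Adj.reachable ((fam_wx r w x).2 hwx))
  haveI : Nonempty ((Bool ⊕ A) ⊕ (W ⊕ L)) := ⟨Sum.inl (Sum.inl false)⟩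
  exact SimpleGraph.Connected.mk fun y z => (hu y).symm.trans (hu z)

variable [Fintype A] [Fintype W] [Fintype L]

open Classical in
/-- number of neighbours in `W` of `x : L`. -/
noncomputable def dg (r : W → L → Prop) (x : L) : ℕ := (univ.filter fun w => r w x).card

open Classical in
theorem two_mul_ncard {V : Type} [Fintype V] (G : SimpleGraph V) :
    2 * G.edgeSet.ncard = ∑ y, ∑ z, (if G.Adj y z then 1 else 0) := by
  have h1 : G.edgeSet.ncard = G.edgeFinset.card := by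
    rw [Set.ncard_eq_toFinset_card', SimpleGraph.edgeFinset]
  rw [h1, ← G.sum_degrees_eq_twice_card_edges]
  refine Finset.sum_congr rfl fun y _ => ?_
  rw [Finset.sum_boole, ← SimpleGraph.card_neighborFinset_eq_degree]
  simp only [Nat.cast_id]
  congr 1
  ext z
  simp

open Classical in
theorem fam_ncard (r : W → L → Prop) :
    (fam A r).edgeSet.ncard = 2 * Fintype.card A + 2 * Fintype.card W + ∑ x, dg r x := by
  have h := two_mul_ncard (fam A r)
  have hdg : ∀ x, ∑ w, (if r w x then 1 else 0) = dg r x := by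
    intro x
    rw [Finset.sum_boole, dg]; simp
  have hsum : ∑ w, ∑ x, (if r w x then 1 else 0) = ∑ x, dg r x := by
    rw [Finset.sum_comm]
    exact Finset.sum_congr rfl fun x _ => hdg x
  rw [Fintype.sum_sum_type, Fintype.sum_sum_type, Fintype.sum_sum_type] at h
  simp only [Fintype.sum_sum_type, fam_ba, fam_bb, fam_bw, fam_bx, fam_ab, fam_aa, fam_aw, fam_ax,
    fam_wb, fam_wa, fam_ww, fam_wx, fam_xb, fam_xa, fam_xw, fam_xx, if_true, if_false,
    Finset.sum_const_zero, add_zero, zero_add, Finset.sum_const, Finset.card_univ,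
    Fintype.card_bool, smul_eq_mul, mul_one, Finset.sum_add_distrib, hsum, hdg] at h
  linarith

set_option linter.unusedSectionVars false

variable [DecidableEq A] [DecidableEq W] [DecidableEq L]

/-- vectors constant on cells -/
noncomputable def vec (A : Type) (r : W → L → Prop) (c0 c1 c2 c3 : ℂ) : (Bool ⊕ A) ⊕ (W ⊕ L) → ℂ :=
  Sum.elim (Sum.elim (fun _ => c0) (fun _ => c1)) (Sum.elim (fun _ => c2) (fun x => c3 * dg r x))

theorem adj_mulVec {V : Type} [Fintype V] (G : SimpleGraph V) [DecidableRel G.Adj]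
    (v : V → ℂ) (y : V) :
    (G.adjMatrix ℂ).mulVec v y = ∑ z, if G.Adj y z then v z else 0 := by
  simp only [Matrix.mulVec, dotProduct, SimpleGraph.adjMatrix_apply]
  refine Finset.sum_congr rfl fun z _ => ?_
  split_ifs <;> simp

open Classical in
theorem mulVec_vec (r : W → L → Prop) [DecidableRel (fam A r).Adj] (ℓ : ℕ)
    (hℓ : ∀ w, ∑ x, (if r w x then dg r x else 0) = ℓ) (c0 c1 c2 c3 : ℂ) :
    ((fam A r).adjMatrix ℂ).mulVec (vec A r c0 c1 c2 c3) =
      vec A r (Fintype.card A * c1 + Fintype.card W * c2) (2 * c0) (2 * c0 + ℓ * c3) c2 := by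
  funext y
  rw [adj_mulVec, Fintype.sum_sum_type, Fintype.sum_sum_type, Fintype.sum_sum_type]
  rcases y with ((b | a) | (w | x))
  · simp [fam_ba, fam_bb, fam_bw, fam_bx, fam_ab, fam_aa, fam_aw, fam_ax, fam_wb, fam_wa, fam_ww,
      fam_wx, fam_xb, fam_xa, fam_xw, fam_xx, vec]
  · simp [fam_ba, fam_bb, fam_bw, fam_bx, fam_ab, fam_aa, fam_aw, fam_ax, fam_wb, fam_wa, fam_ww,
      fam_wx, fam_xb, fam_xa, fam_xw, fam_xx, vec]
  · have h1 : ∑ x, (if r w x then c3 * (dg r x : ℂ) else 0) = ℓ * c3 := by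
      rw [← hℓ w]
      push_cast
      rw [Finset.sum_mul]
      refine Finset.sum_congr rfl fun x _ => ?_
      split_ifs <;> ring
    simp only [fam_ba, fam_bb, fam_bw, fam_bx, fam_ab, fam_aa, fam_aw, fam_ax, fam_wb, fam_wa, fam_ww,
      fam_wx, fam_xb, fam_xa, fam_xw, fam_xx, vec, Sum.elim_inl, Sum.elim_inr]
    simp only [if_true, if_false, Finset.sum_const_zero, add_zero, mul_zero, Finset.sum_const,
      Finset.card_univ, Fintype.card_bool, nsmul_eq_mul, zero_add]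
    congr 1
  · have h1 : ∑ w, (if r w x then c2 else 0) = c2 * dg r x := by
      rw [← Finset.sum_filter, Finset.sum_const, dg, nsmul_eq_mul]
      ring
    simp only [fam_ba, fam_bb, fam_bw, fam_bx, fam_ab, fam_aa, fam_aw, fam_ax, fam_wb, fam_wa, fam_ww,
      fam_wx, fam_xb, fam_xa, fam_xw, fam_xx, vec, Sum.elim_inl, Sum.elim_inr]
    simp only [if_false, Finset.sum_const_zero, add_zero, zero_add]
    convert h1

/-- difference vector -/
def dvec (A W L : Type) : (Bool ⊕ A) ⊕ (W ⊕ L) → ℂ :=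
  Sum.elim (Sum.elim (fun b => if b then -1 else 1) (fun _ => 0)) (Sum.elim (fun _ => 0) (fun _ => 0))

open Classical in
theorem mulVec_dvec (r : W → L → Prop) [DecidableRel (fam A r).Adj] :
    ((fam A r).adjMatrix ℂ).mulVec (dvec A W L) = 0 := by
  funext y
  rw [adj_mulVec, Fintype.sum_sum_type, Fintype.sum_sum_type, Fintype.sum_sum_type]
  rcases y with ((b | a) | (w | x)) <;>
    simp [fam_ba, fam_bb, fam_bw, fam_bx, fam_ab, fam_aa, fam_aw, fam_ax, fam_wb, fam_wa, fam_ww,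
      fam_wx, fam_xb, fam_xa, fam_xw, fam_xx, dvec]

open Classical in
theorem pst_of_neg (r : W → L → Prop) [DecidableRel (fam A r).Adj] (t : ℝ)
    (h : (NormedSpace.exp ((Complex.I * (t : ℂ)) • (fam A r).adjMatrix ℂ)).mulVec
      (vec A r 1 0 0 0) = - vec A r 1 0 0 0) : AdmitsPST (fam A r) := by
  refine ⟨Sum.inl (Sum.inl false), Sum.inl (Sum.inl true), by simp, t, -1, by simp, ?_⟩
  have hd : (NormedSpace.exp ((Complex.I * (t : ℂ)) • (fam A r).adjMatrix ℂ)).mulVec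
      (dvec A W L) = dvec A W L := by
    have := exp_mulVec_of_eigen ((Complex.I * (t : ℂ)) • (fam A r).adjMatrix ℂ) (dvec A W L) 0
      (by rw [Matrix.smul_mulVec, mulVec_dvec, smul_zero, zero_smul])
    rw [this, Complex.exp_zero, one_smul]
  have e1 : (Pi.single (Sum.inl (Sum.inl false)) 1 : (Bool ⊕ A) ⊕ (W ⊕ L) → ℂ) =
      (1 / 2 : ℂ) • (vec A r 1 0 0 0 + dvec A W L) := by
    funext y
    rcases y with (((_ | _) | a) | (w | x)) <;> simp [vec, dvec]
    norm_num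
  have e2 : ((-1 : ℂ) • Pi.single (Sum.inl (Sum.inl true)) 1 : (Bool ⊕ A) ⊕ (W ⊕ L) → ℂ) =
      (1 / 2 : ℂ) • (- vec A r 1 0 0 0 + dvec A W L) := by
    funext y
    rcases y with (((_ | _) | a) | (w | x)) <;> simp [vec, dvec]
    norm_num
  rw [e1, e2, Matrix.mulVec_smul, Matrix.mulVec_add, h, hd]


theorem vec_smul (r : W → L → Prop) (k c0 c1 c2 c3 : ℂ) :
    k • vec A r c0 c1 c2 c3 = vec A r (k * c0) (k * c1) (k * c2) (k * c3) := by
  funext y
  rcases y with ((b | a) | (w | x)) <;> simp [vec, mul_assoc]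

theorem vec_add (r : W → L → Prop) (c0 c1 c2 c3 d0 d1 d2 d3 : ℂ) :
    vec A r c0 c1 c2 c3 + vec A r d0 d1 d2 d3 = vec A r (c0 + d0) (c1 + d1) (c2 + d2) (c3 + d3) := by
  funext y
  rcases y with ((b | a) | (w | x)) <;> simp [vec, add_mul]

open Classical in
/-- The main family: four vertices in `A`, `q ^ 2 - 2` vertices in `W`, and every vertex of `W`
sees total degree `2 q ^ 2` in `L`. -/
theorem fam_pst (r : W → L → Prop) [DecidableRel (fam A r).Adj] (q : ℕ) (hq : Odd q)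
    (hq3 : 3 ≤ q) (hA : Fintype.card A = 4) (hW : Fintype.card W + 2 = q ^ 2)
    (hℓ : ∀ w, ∑ x, (if r w x then dg r x else 0) = 2 * q ^ 2) :
    AdmitsPST (fam A r) := by
  have hWc : (Fintype.card W : ℂ) = (q : ℂ) ^ 2 - 2 := by
    have : ((Fintype.card W + 2 : ℕ) : ℂ) = ((q ^ 2 : ℕ) : ℂ) := by rw [hW]
    push_cast at this
    linear_combination this
  have hAc : (Fintype.card A : ℂ) = 4 := by rw [hA]; norm_num
  have hmul := mulVec_vec (A := A) r (2 * q ^ 2) hℓ
  rw [hWc, hAc] at hmul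
  have hq2 : (q : ℂ) ^ 2 - 1 ≠ 0 := by
    have h9 : 1 < q ^ 2 := by nlinarith
    have : ((q ^ 2 : ℕ) : ℂ) ≠ ((1 : ℕ) : ℂ) := by
      rw [Ne, Nat.cast_inj]; omega
    push_cast at this
    exact sub_ne_zero.2 this
  have hexp : ∀ (θ : ℂ) (v : (Bool ⊕ A) ⊕ (W ⊕ L) → ℂ), ((fam A r).adjMatrix ℂ).mulVec v = θ • v →
      Complex.exp (Complex.I * ((Real.pi / 2 : ℝ) : ℂ) * θ) = -1 →
      (NormedSpace.exp ((Complex.I * ((Real.pi / 2 : ℝ) : ℂ)) • (fam A r).adjMatrix ℂ)).mulVec v =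
        - v := by
    intro θ v hv hθ
    rw [exp_mulVec_of_eigen _ v (Complex.I * ((Real.pi / 2 : ℝ) : ℂ) * θ)
      (by rw [Matrix.smul_mulVec, hv, smul_smul]), hθ]
    simp
  have hodd : ∀ z : ℤ, Odd z → Complex.exp (Complex.I * ((Real.pi / 2 : ℝ) : ℂ) * (2 * z)) = -1 := by
    intro z hz
    obtain ⟨k, rfl⟩ := hz
    have : Complex.I * ((Real.pi / 2 : ℝ) : ℂ) * (2 * ((2 * k + 1 : ℤ) : ℂ)) =
        k * (2 * Real.pi * Complex.I) + Real.pi * Complex.I := by
      push_cast; ring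
    rw [this, Complex.exp_add, Complex.exp_int_mul_two_pi_mul_I, Complex.exp_pi_mul_I]
    ring
  have hqz : Odd (q : ℤ) := by exact_mod_cast hq
  have h1 := hexp 2 (vec A r ((q : ℂ) ^ 2 - 2) ((q : ℂ) ^ 2 - 2) (-2) (-1))
    (by rw [hmul, vec_smul]; push_cast; congr 1 <;> ring)
    (by have := hodd 1 (by decide); simpa using this)
  have h2 := hexp (-2) (vec A r ((q : ℂ) ^ 2 - 2) (-((q : ℂ) ^ 2 - 2)) 2 (-1))
    (by rw [hmul, vec_smul]; push_cast; congr 1 <;> ring)
    (by have := hodd (-1) (by decide); simpa using this)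
  have h3 := hexp (2 * q) (vec A r ((q : ℂ) ^ 2) q (2 * q) 1)
    (by rw [hmul, vec_smul]; push_cast; congr 1 <;> ring)
    (by have := hodd q hqz; simpa using this)
  have h4 := hexp (-(2 * q)) (vec A r ((q : ℂ) ^ 2) (-q) (-(2 * q)) 1)
    (by rw [hmul, vec_smul]; push_cast; congr 1 <;> ring)
    (by have := hodd (-q) hqz.neg; simpa using this)
  apply pst_of_neg r (Real.pi / 2)
  have hdec : vec A r 1 0 0 0 = (1 / (4 * ((q : ℂ) ^ 2 - 1))) •
      (((vec A r ((q : ℂ) ^ 2 - 2) ((q : ℂ) ^ 2 - 2) (-2) (-1)) +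
      (vec A r ((q : ℂ) ^ 2 - 2) (-((q : ℂ) ^ 2 - 2)) 2 (-1))) +
      ((vec A r ((q : ℂ) ^ 2) q (2 * q) 1) + (vec A r ((q : ℂ) ^ 2) (-q) (-(2 * q)) 1))) := by
    rw [vec_add, vec_add, vec_add, vec_smul]
    congr 1
    · field_simp; ring
    · ring
    · ring
    · ring
  rw [hdec, Matrix.mulVec_smul, Matrix.mulVec_add, Matrix.mulVec_add, Matrix.mulVec_add, h1, h2,
    h3, h4, ← smul_neg]
  congr 1
  abel

open Classical in
/-- Complete bipartite graphs `K_{2,k}`. -/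
theorem K2_pst (r : Empty → Empty → Prop) [DecidableRel (fam A r).Adj] (k : ℕ) (hk : 1 ≤ k)
    (hA : Fintype.card A = k) : AdmitsPST (fam A r) := by
  have hmul := mulVec_vec (A := A) r 0 (fun w => w.elim)
  rw [hA] at hmul
  have hkpos : (0 : ℝ) < 2 * k := by positivity
  set θ : ℝ := √(2 * k) with hθ
  have hθpos : 0 < θ := Real.sqrt_pos.2 hkpos
  have hθ2 : (θ : ℂ) * θ = 2 * k := by
    rw [← Complex.ofReal_mul, Real.mul_self_sqrt hkpos.le]; push_cast; ring
  have hθne : (θ : ℂ) ≠ 0 := by exact_mod_cast hθpos.ne'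
  apply pst_of_neg r (Real.pi / θ)
  have hexp : ∀ (μ : ℂ) (v : (Bool ⊕ A) ⊕ (Empty ⊕ Empty) → ℂ),
      ((fam A r).adjMatrix ℂ).mulVec v = μ • v →
      Complex.exp (Complex.I * ((Real.pi / θ : ℝ) : ℂ) * μ) = -1 →
      (NormedSpace.exp ((Complex.I * ((Real.pi / θ : ℝ) : ℂ)) • (fam A r).adjMatrix ℂ)).mulVec v =
        - v := by
    intro μ v hv hμ
    rw [exp_mulVec_of_eigen _ v (Complex.I * ((Real.pi / θ : ℝ) : ℂ) * μ)
      (by rw [Matrix.smul_mulVec, hv, smul_smul]), hμ]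
    simp
  have hext : ∀ c0 c1 c2 c3 d2 d3 : ℂ, vec A r c0 c1 c2 c3 = vec A r c0 c1 d2 d3 := by
    intro c0 c1 c2 c3 d2 d3
    funext y
    rcases y with ((b | a) | (w | x))
    · rfl
    · rfl
    · exact w.elim
    · exact x.elim
  have h1 := hexp θ (vec A r θ 2 0 0)
    (by
      rw [hmul, vec_smul, hθ2, hext _ _ _ _ (θ * 0) (θ * 0)]
      congr 1
      · push_cast; simp; ring
      · ring)
    (by
      rw [← Complex.exp_pi_mul_I]
      congr 1
      push_cast
      field_simp)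
  have h2 := hexp (-θ) (vec A r θ (-2) 0 0)
    (by
      rw [hmul, vec_smul, neg_mul (θ : ℂ) (θ : ℂ), hθ2, hext _ _ _ _ (-θ * 0) (-θ * 0)]
      congr 1
      · push_cast; simp; ring
      · ring)
    (by
      have : Complex.I * ((Real.pi / θ : ℝ) : ℂ) * (-θ) = -(Real.pi * Complex.I) := by
        push_cast
        field_simp
      rw [this, Complex.exp_neg, Complex.exp_pi_mul_I]
      norm_num)
  have hdec : vec A r 1 0 0 0 = (1 / (2 * (θ : ℂ))) • (vec A r θ 2 0 0 + vec A r θ (-2) 0 0) := by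
    rw [vec_add, vec_smul]
    congr 1
    · field_simp; ring
    · ring
    · ring
    · ring
  rw [hdec, Matrix.mulVec_smul, Matrix.mulVec_add, h1, h2, ← smul_neg]
  congr 1
  abel

end Family

section Blocks

variable {K : ℕ} {ι : Type} [Fintype ι] (ℓ : ℕ) (s : ι → ℕ)

/-- load of the fused vertices at `w`. -/
def load (K : ℕ) {ι : Type} [Fintype ι] (s : ι → ℕ) (w : Fin K) : ℕ := ∑ j, if w.val < s j then s j else 0

/-- `L`-side vertices: the fused vertices and private leaves. -/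
abbrev LType (K : ℕ) {ι : Type} [Fintype ι] (ℓ : ℕ) (s : ι → ℕ) : Type :=
  ι ⊕ (Σ w : Fin K, Fin (ℓ - load K s w))

/-- incidence between `W = Fin K` and `L`. -/
def rel (K : ℕ) {ι : Type} [Fintype ι] (ℓ : ℕ) (s : ι → ℕ) : Fin K → LType K ℓ s → Prop
  | w, .inl j => w.val < s j
  | w, .inr p => w = p.1

theorem rel_inl (w : Fin K) (j : ι) : rel K ℓ s w (Sum.inl j) ↔ w.val < s j := Iff.rfl

theorem rel_inr (w : Fin K) (p : Σ w : Fin K, Fin (ℓ - load K s w)) :
    rel K ℓ s w (Sum.inr p) ↔ w = p.1 := Iff.rfl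

theorem dg_inl (hs : ∀ j, s j ≤ K) (j : ι) : dg (rel K ℓ s) (Sum.inl j) = s j := by
  classical
  rw [dg]
  have : (univ.filter fun w : Fin K => rel K ℓ s w (Sum.inl j)) =
      (univ.filter fun w : Fin K => w.val < s j) := by
    ext w
    rw [Finset.mem_filter, Finset.mem_filter, rel_inl]
  rw [this, Fin.card_filter_val_lt]
  exact min_eq_right (hs j)

theorem dg_inr (p : Σ w : Fin K, Fin (ℓ - load K s w)) : dg (rel K ℓ s) (Sum.inr p) = 1 := by
  classical
  rw [dg]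
  have : (univ.filter fun w : Fin K => rel K ℓ s w (Sum.inr p)) = {p.1} := by
    ext w
    rw [Finset.mem_filter, Finset.mem_singleton, rel_inr]
    simp
  rw [this, Finset.card_singleton]

theorem load_le (hsum : ∑ j, s j ≤ ℓ) (w : Fin K) : load K s w ≤ ℓ := by
  refine le_trans ?_ hsum
  refine Finset.sum_le_sum fun j _ => ?_
  split_ifs <;> omega

open Classical in
theorem rel_sum (hs : ∀ j, s j ≤ K) (hsum : ∑ j, s j ≤ ℓ) (w : Fin K) :
    ∑ x, (if rel K ℓ s w x then dg (rel K ℓ s) x else 0) = ℓ := by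
  rw [Fintype.sum_sum_type]
  have h1 : ∑ j, (if rel K ℓ s w (Sum.inl j) then dg (rel K ℓ s) (Sum.inl j) else 0) =
      load K s w := by
    rw [load]
    refine Finset.sum_congr rfl fun j _ => ?_
    rw [dg_inl ℓ s hs]
    simp only [rel_inl]
  have h2 : ∑ p, (if rel K ℓ s w (Sum.inr p) then dg (rel K ℓ s) (Sum.inr p) else 0) =
      ℓ - load K s w := by
    simp only [dg_inr]
    rw [Fintype.sum_sigma, Finset.sum_eq_single w]
    · simp [rel_inr]
    · intro b _ hb
      simp [rel_inr, Ne.symm hb]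
    · simp
  rw [h1, h2]
  have := load_le ℓ s hsum w
  omega

theorem sum_load (hs : ∀ j, s j ≤ K) : ∑ w, load K s w = ∑ j, s j * s j := by
  simp only [load]
  rw [Finset.sum_comm]
  refine Finset.sum_congr rfl fun j _ => ?_
  rw [← Finset.sum_filter, Finset.sum_const, Fin.card_filter_val_lt, min_eq_right (hs j),
    smul_eq_mul]

theorem sum_leaves (hs : ∀ j, s j ≤ K) (hsum : ∑ j, s j ≤ ℓ) :
    (∑ w : Fin K, (ℓ - load K s w)) + ∑ j, s j * s j = K * ℓ := by
  rw [← sum_load s hs, ← Finset.sum_add_distrib]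
  have : ∀ w ∈ (univ : Finset (Fin K)), (ℓ - load K s w) + load K s w = ℓ := fun w _ =>
    Nat.sub_add_cancel (load_le ℓ s hsum w)
  rw [Finset.sum_congr rfl this]
  simp

theorem sum_dg (hs : ∀ j, s j ≤ K) :
    ∑ x, dg (rel K ℓ s) x = ∑ j, s j + ∑ w : Fin K, (ℓ - load K s w) := by
  rw [Fintype.sum_sum_type]
  simp only [dg_inl ℓ s hs, dg_inr]
  congr 1
  simp

theorem card_L : Fintype.card (LType K ℓ s) = Fintype.card ι + ∑ w : Fin K, (ℓ - load K s w) := by
  simp [LType]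

end Blocks


theorem mem_counts_family (q : ℕ) (hq : Odd q) (hq3 : 3 ≤ q) {ι : Type} [Fintype ι]
    [DecidableEq ι] (s : ι → ℕ) (hs : ∀ j, s j ≤ q ^ 2 - 2) (hs1 : ∀ j, 1 ≤ s j)
    (hsum : ∑ j, s j ≤ 2 * q ^ 2) :
    ∃ S : ℕ, S + ∑ j, s j * s j = (q ^ 2 - 2) * (2 * q ^ 2) ∧
      (8 + 2 * (q ^ 2 - 2) + ∑ j, s j + S) ∈
        pstEdgeCounts (6 + (q ^ 2 - 2) + Fintype.card ι + S) := by
  classical
  refine ⟨∑ w : Fin (q ^ 2 - 2), (2 * q ^ 2 - load (q ^ 2 - 2) s w),
    sum_leaves (2 * q ^ 2) s hs hsum, ?_⟩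
  have hq9 : 9 ≤ q ^ 2 := by nlinarith
  refine ⟨(Bool ⊕ Fin 4) ⊕ (Fin (q ^ 2 - 2) ⊕ LType (q ^ 2 - 2) (2 * q ^ 2) s), inferInstance,
    inferInstance, fam (Fin 4) (rel (q ^ 2 - 2) (2 * q ^ 2) s), Classical.decRel _, ?_, ?_, ?_, ?_⟩
  · rw [Fintype.card_sum, Fintype.card_sum, Fintype.card_sum, card_L (2 * q ^ 2) s]
    simp only [Fintype.card_bool, Fintype.card_fin]
    omega
  · apply fam_connected _ (0 : Fin 4)
    rintro (j | p)
    · refine ⟨⟨0, by omega⟩, ?_⟩
      rw [rel_inl]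
      exact hs1 j
    · exact ⟨p.1, rfl⟩
  · refine @fam_pst (Fin 4) _ _ _ _ _ _ _ _ _ (Classical.decRel _) q hq hq3 (by simp) ?_ ?_
    · rw [Fintype.card_fin]; omega
    · exact rel_sum (2 * q ^ 2) s hs hsum
  · rw [fam_ncard, sum_dg (2 * q ^ 2) s hs]
    simp only [Fintype.card_fin]
    omega

theorem mem_counts_K2 (k : ℕ) (hk : 1 ≤ k) : 2 * k ∈ pstEdgeCounts (2 + k) := by
  classical
  refine ⟨(Bool ⊕ Fin k) ⊕ (Empty ⊕ Empty), inferInstance, inferInstance,
    fam (Fin k) (fun _ _ : Empty => False), Classical.decRel _, ?_, ?_, ?_, ?_⟩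
  · simp
  · exact fam_connected _ ⟨0, hk⟩ (fun x => x.elim)
  · exact @K2_pst (Fin k) _ _ _ (Classical.decRel _) k hk (by simp)
  · rw [fam_ncard]; simp

theorem mem_counts_two : 1 ∈ pstEdgeCounts 2 := by
  refine ⟨Bool, inferInstance, inferInstance, ⊤, inferInstance, by simp, ?_, ?_, ?_⟩
  · exact SimpleGraph.connected_top
  · refine ⟨false, true, by simp, Real.pi / 2, Complex.I, by simp, ?_⟩
    have h1 : ((⊤ : SimpleGraph Bool).adjMatrix ℂ).mulVec (fun _ => 1) =
        (1 : ℂ) • (fun _ => (1 : ℂ)) := by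
      funext y
      cases y <;> simp [Matrix.mulVec, dotProduct, SimpleGraph.adjMatrix_apply]
    have h2 : ((⊤ : SimpleGraph Bool).adjMatrix ℂ).mulVec (fun b => if b then -1 else 1) =
        (-1 : ℂ) • (fun b : Bool => if b then (-1 : ℂ) else 1) := by
      funext y
      cases y <;> simp [Matrix.mulVec, dotProduct, SimpleGraph.adjMatrix_apply]
    have e1 := exp_mulVec_of_eigen ((Complex.I * ((Real.pi / 2 : ℝ) : ℂ)) •
      (⊤ : SimpleGraph Bool).adjMatrix ℂ) _ (Complex.I * ((Real.pi / 2 : ℝ) : ℂ) * 1)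
      (by rw [Matrix.smul_mulVec, h1, smul_smul])
    have e2 := exp_mulVec_of_eigen ((Complex.I * ((Real.pi / 2 : ℝ) : ℂ)) •
      (⊤ : SimpleGraph Bool).adjMatrix ℂ) _ (Complex.I * ((Real.pi / 2 : ℝ) : ℂ) * (-1))
      (by rw [Matrix.smul_mulVec, h2, smul_smul])
    have c1 : Complex.exp (Complex.I * ((Real.pi / 2 : ℝ) : ℂ) * 1) = Complex.I := by
      rw [mul_one, mul_comm, Complex.exp_mul_I, ← Complex.ofReal_cos, ← Complex.ofReal_sin,
        Real.cos_pi_div_two, Real.sin_pi_div_two]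
      simp
    have c2 : Complex.exp (Complex.I * ((Real.pi / 2 : ℝ) : ℂ) * (-1)) = -Complex.I := by
      rw [mul_neg, Complex.exp_neg, c1, Complex.inv_I]
    rw [c1] at e1
    rw [c2] at e2
    have d1 : (Pi.single false 1 : Bool → ℂ) = (1 / 2 : ℂ) • ((fun _ => (1 : ℂ)) +
        (fun b : Bool => if b then (-1 : ℂ) else 1)) := by
      funext y
      cases y <;> simp; norm_num
    rw [d1, Matrix.mulVec_smul, Matrix.mulVec_add, e1, e2]
    funext y
    cases y <;> simp; ring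
  · have h := two_mul_ncard (⊤ : SimpleGraph Bool)
    rw [show (∑ y : Bool, ∑ z : Bool, @ite ℕ ((⊤ : SimpleGraph Bool).Adj y z)
      (Classical.propDecidable _) 1 0) = 2 by
        simp only [Fintype.sum_bool, SimpleGraph.top_adj]; simp] at h
    omega

theorem minEdges_le {n e : ℕ} (h : e ∈ pstEdgeCounts n) : minEdges n ≤ e :=
  sInf_le ⟨e, h, rfl⟩

theorem minEdges_attained {n : ℕ} (hn : (pstEdgeCounts n).Nonempty) :
    ∃ e ∈ pstEdgeCounts n, minEdges n = e := by
  have h : ((fun e : ℕ => (e : ℕ∞)) '' pstEdgeCounts n).Nonempty := hn.image _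
  obtain ⟨e, he, hee⟩ := csInf_mem h
  exact ⟨e, he, hee.symm⟩

theorem le_of_mem {n e : ℕ} (h : e ∈ pstEdgeCounts n) : n ≤ e + 1 := by
  obtain ⟨V, _, _, G, _, hV, hG, -, he⟩ := h
  have := hG.card_vert_le_card_edgeSet_add_one
  rw [Nat.card_eq_fintype_card, hV, Nat.card_coe_set_eq, he] at this
  exact this

theorem finite_small (n : ℕ) (hn : 2 ≤ n) :
    ∃ e : ℕ, minEdges n = e ∧ n ≤ e + 1 ∧ e ≤ 2 * n - 3 := by
  obtain ⟨e0, he0, he0'⟩ : ∃ e ∈ pstEdgeCounts n, e ≤ 2 * n - 3 := by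
    by_cases h2 : n = 2
    · subst h2
      exact ⟨1, mem_counts_two, by norm_num⟩
    · refine ⟨2 * (n - 2), ?_, by omega⟩
      have := mem_counts_K2 (n - 2) (by omega)
      rwa [show 2 + (n - 2) = n by omega] at this
  obtain ⟨e, he, hee⟩ := minEdges_attained ⟨e0, he0⟩
  refine ⟨e, hee, le_of_mem he, ?_⟩
  have := minEdges_le he0
  rw [hee] at this
  have : e ≤ e0 := by exact_mod_cast this
  omega

/-- Number of vertices of the family member with parameter `q = 2 k + 1` and no fused vertex. -/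
def base (k : ℕ) : ℕ :=
  6 + ((2 * k + 1) ^ 2 - 2) + ((2 * k + 1) ^ 2 - 2) * (2 * (2 * k + 1) ^ 2)

theorem base_mono : StrictMono base := by
  refine strictMono_nat_of_lt_succ fun k => ?_
  rw [base, base]
  have h1 : (2 * k + 1) ^ 2 - 2 ≤ (2 * (k + 1) + 1) ^ 2 - 2 := by
    apply Nat.sub_le_sub_right
    apply Nat.pow_le_pow_left
    omega
  have h2 : 2 * (2 * k + 1) ^ 2 ≤ 2 * (2 * (k + 1) + 1) ^ 2 := by
    have : (2 * k + 1) ^ 2 ≤ (2 * (k + 1) + 1) ^ 2 := Nat.pow_le_pow_left (by omega) 2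
    omega
  have h3 : (2 * k + 1) ^ 2 - 2 < (2 * (k + 1) + 1) ^ 2 - 2 := by
    have e1 : (2 * (k + 1) + 1) ^ 2 = (2 * k + 1) ^ 2 + 8 * k + 8 := by ring
    have e2 : 1 ≤ (2 * k + 1) ^ 2 := Nat.one_le_pow _ _ (by omega)
    omega
  have := Nat.mul_le_mul h1 h2
  omega

theorem base_cast (j : ℕ) (hj : 1 ≤ j) :
    (base j : ℤ) = 2 * ((2 * j + 1 : ℤ) ^ 2) ^ 2 - 3 * (2 * j + 1 : ℤ) ^ 2 + 4 := by
  have e1 : 2 ≤ (2 * j + 1) ^ 2 := by nlinarith
  rw [base]
  push_cast [Nat.cast_sub e1]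
  ring

theorem base_succ_le (j : ℕ) (hj : 1 ≤ j) : base (j + 1) ≤ base j + 16 * (2 * (j + 1) + 1) ^ 3 := by
  have : (base (j + 1) : ℤ) ≤ ((base j + 16 * (2 * (j + 1) + 1) ^ 3 : ℕ) : ℤ) := by
    push_cast
    rw [base_cast j hj, base_cast (j + 1) (by omega)]
    push_cast
    have hj' : (0 : ℤ) ≤ j := by positivity
    have : 0 ≤ (48 : ℤ) * (2 * j + 1) ^ 2 + 140 * (2 * j + 1) + 108 := by positivity
    nlinarith
  exact_mod_cast this

theorem pow_le_of_base_lt (j n : ℕ) (hj : 13 ≤ j) (h : base j < n + 14) : (2 * j + 1) ^ 4 ≤ n := by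
  have h1 : (base j : ℤ) < n + 14 := by exact_mod_cast h
  rw [base_cast j (by omega)] at h1
  have hj' : (13 : ℤ) ≤ j := by exact_mod_cast hj
  have h2 : (729 : ℤ) ≤ (2 * j + 1 : ℤ) ^ 2 := by nlinarith
  have h3 : ((2 * j + 1 : ℤ) ^ 2) ^ 2 ≤ n := by
    generalize (2 * j + 1 : ℤ) ^ 2 = y at h1 h2 ⊢
    nlinarith
  have h4 : (((2 * j + 1) ^ 4 : ℕ) : ℤ) ≤ n := by
    push_cast
    rw [← pow_mul] at h3
    exact h3
  exact_mod_cast h4

theorem sqrt_bound (q s0 D : ℕ) (hq : 29 ≤ q) (h : s0 * s0 ≤ D) (hD : D ≤ 16 * q ^ 3) :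
    4 * s0 ≤ 3 * q ^ 2 := by
  by_contra hcon
  push Not at hcon
  have h1 : (3 * q ^ 2) * (3 * q ^ 2) < (4 * s0) * (4 * s0) := Nat.mul_lt_mul'' hcon hcon
  have h2 : (4 * s0) * (4 * s0) ≤ (3 * q ^ 2) * (3 * q ^ 2) := by
    calc (4 * s0) * (4 * s0) = 16 * (s0 * s0) := by ring
      _ ≤ 16 * (16 * q ^ 3) := Nat.mul_le_mul_left _ (h.trans hD)
      _ = 256 * q ^ 3 := by ring
      _ ≤ (9 * q) * q ^ 3 := Nat.mul_le_mul_right _ (by omega)
      _ = (3 * q ^ 2) * (3 * q ^ 2) := by ring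
  exact absurd h1 (not_lt.2 h2)

theorem sq_bound (q n : ℕ) (hq : 29 ≤ q) (hlow : (q - 2) ^ 4 ≤ n) :
    3 * q ^ 2 ≤ 4 * Nat.sqrt n := by
  have h1 : (q - 2) ^ 2 ≤ Nat.sqrt n := by
    rw [Nat.le_sqrt]
    calc (q - 2) ^ 2 * (q - 2) ^ 2 = (q - 2) ^ 4 := by ring
      _ ≤ n := hlow
  have h2 : 3 * q ^ 2 ≤ 4 * (q - 2) ^ 2 := by
    obtain ⟨p, rfl⟩ : ∃ p, q = p + 2 := ⟨q - 2, by omega⟩
    rw [Nat.add_sub_cancel]
    have : 27 ≤ p := by omega
    nlinarith
  omega

/-- Existence of good parameters for all large `n`. -/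
theorem exists_params (n : ℕ) (hn : 1100000 ≤ n) :
    ∃ e ∈ pstEdgeCounts n, e ≤ n + 4 * Nat.sqrt n := by
  have hex : ∃ k, n + 14 ≤ base k := ⟨n + 14, base_mono.id_le _⟩
  classical
  set k := Nat.find hex with hk
  have hk1 : n + 14 ≤ base k := Nat.find_spec hex
  have hk14 : 14 ≤ k := by
    by_contra hlt
    have : base k ≤ base 13 := base_mono.monotone (by omega)
    have h13 : base 13 = 1060699 := by decide
    omega
  have hk2 : base (k - 1) < n + 14 := by
    have := Nat.find_min hex (m := k - 1) (by omega)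
    omega
  set q := 2 * k + 1 with hq
  have hqodd : Odd q := ⟨k, hq⟩
  have hq29 : 29 ≤ q := by omega
  -- polynomial identities
  obtain ⟨K, hK⟩ : ∃ K, q ^ 2 = K + 2 := ⟨q ^ 2 - 2, by
    have : 29 ^ 2 ≤ q ^ 2 := Nat.pow_le_pow_left hq29 2
    omega⟩
  have hKq : q ^ 2 - 2 = K := by omega
  have hbk : base k = 6 + K + K * (2 * q ^ 2) := by
    rw [base, ← hq, hKq]
  have hkm : k - 1 + 1 = k := by omega
  have hbk' : base k ≤ base (k - 1) + 16 * q ^ 3 := by
    have := base_succ_le (k - 1) (by omega)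
    rwa [hkm, ← hq] at this
  have hlow : (q - 2) ^ 4 ≤ n := by
    have := pow_le_of_base_lt (k - 1) n (by omega) hk2
    rwa [show 2 * (k - 1) + 1 = q - 2 by omega] at this
  -- the deficit
  set d := base k - n with hd
  have hd14 : 14 ≤ d := by omega
  have hdu : d - 13 ≤ 16 * q ^ 3 := by omega
  set s0 := Nat.sqrt (d - 13) with hs0
  have hs0a : s0 * s0 ≤ d - 13 := Nat.sqrt_le _
  have hs0b : d - 13 ≤ s0 * s0 + s0 + s0 := Nat.sqrt_le_add _
  have hs01 : 1 ≤ s0 := by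
    rw [hs0, Nat.le_sqrt]
    omega
  obtain ⟨r, hr⟩ : ∃ r, d + 1 = s0 * s0 + r := ⟨d + 1 - s0 * s0, by omega⟩
  have hr14 : 14 ≤ r := by omega
  have hru : r ≤ 2 * s0 + 14 := by omega
  obtain ⟨a, b, hab, hb2⟩ : ∃ a b, r = 3 * a + 8 * b ∧ b ≤ 2 := by
    refine ⟨(r - 8 * ((2 * r) % 3)) / 3, (2 * r) % 3, ?_, ?_⟩ <;> omega
  have hs0q : 4 * s0 ≤ 3 * q ^ 2 := sqrt_bound q s0 (d - 13) hq29 hs0a hdu
  have hq841 : 841 ≤ q ^ 2 := by nlinarith
  let s : Unit ⊕ (Fin a ⊕ Fin b) → ℕ := Sum.elim (fun _ => s0) (Sum.elim (fun _ => 2) (fun _ => 3))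
  have hsumS : ∑ j, s j = s0 + (2 * a + 3 * b) := by
    simp only [s, Fintype.sum_sum_type, Sum.elim_inl, Sum.elim_inr]
    simp
    ring
  have hsumQ : ∑ j, s j * s j = s0 * s0 + (4 * a + 9 * b) := by
    simp only [s, Fintype.sum_sum_type, Sum.elim_inl, Sum.elim_inr]
    simp
    ring
  obtain ⟨S, hS, hmem⟩ := mem_counts_family q hqodd (by omega) s
    (by rintro (_ | _ | _) <;> simp only [s, Sum.elim_inl, Sum.elim_inr] <;> omega)
    (by rintro (_ | _ | _) <;> simp only [s, Sum.elim_inl, Sum.elim_inr] <;> omega)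
    (by rw [hsumS]; omega)
  rw [hsumQ, hKq] at hS
  rw [hsumS, hKq] at hmem
  have hcard : Fintype.card (Unit ⊕ (Fin a ⊕ Fin b)) = 1 + (a + b) := by simp
  rw [hcard] at hmem
  have hn' : 6 + K + (1 + (a + b)) + S = n := by omega
  rw [hn'] at hmem
  refine ⟨_, hmem, ?_⟩
  have hsq : 3 * q ^ 2 ≤ 4 * Nat.sqrt n := sq_bound q n hq29 hlow
  omega

theorem upper_bound (n : ℕ) (hn : 1100000 ≤ n) :
    ((minEdges n).toNat : ℝ) ≤ n + 4 * √(n : ℝ) := by
  obtain ⟨e, he, hle⟩ := exists_params n hn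
  have h1 := minEdges_le he
  have h2 : (minEdges n).toNat ≤ e := ENat.toNat_le_of_le_coe h1
  have h3 : ((minEdges n).toNat : ℝ) ≤ ((n + 4 * Nat.sqrt n : ℕ) : ℝ) := by
    exact_mod_cast h2.trans hle
  refine h3.trans ?_
  push_cast
  have := Real.nat_sqrt_le_real_sqrt (a := n)
  linarith

/-- **Order of growth of `m(n)`.**  `m(n)` is finite for every `n ≥ 2` (with
`n - 1 ≤ m(n) ≤ 2 n - 3`), satisfies `m(n) ≤ n + 4 √n` for all `n ≥ 1100000`, and
`m(n)` is asymptotically equivalent to `n`. -/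
theorem result :
    (∀ n : ℕ, 2 ≤ n → ∃ e : ℕ, minEdges n = e ∧ n ≤ e + 1 ∧ e ≤ 2 * n - 3) ∧
    (∀ n : ℕ, 1100000 ≤ n → ((minEdges n).toNat : ℝ) ≤ n + 4 * √(n : ℝ)) ∧
    Asymptotics.IsEquivalent atTop (fun n : ℕ => ((minEdges n).toNat : ℝ))
      (fun n : ℕ => (n : ℝ)) := by
  refine ⟨finite_small, upper_bound, ?_⟩
  refine Asymptotics.isEquivalent_of_tendsto_one ?_
  have hlow : ∀ n : ℕ, 1100000 ≤ n → (n : ℝ) - 1 ≤ ((minEdges n).toNat : ℝ) := by
    intro n hn
    obtain ⟨e, he, h1, -⟩ := finite_small n (by omega)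
    rw [he, ENat.toNat_coe]
    have : (n : ℝ) ≤ e + 1 := by exact_mod_cast h1
    linarith
  have t1 : Tendsto (fun n : ℕ => 1 - 1 / (n : ℝ)) atTop (nhds 1) := by
    have := tendsto_const_div_atTop_nhds_zero_nat (1 : ℝ)
    simpa using this.const_sub 1
  have t2 : Tendsto (fun n : ℕ => 1 + 4 / √(n : ℝ)) atTop (nhds 1) := by
    have h1 : Tendsto (fun n : ℕ => √(n : ℝ)) atTop atTop :=
      Real.tendsto_sqrt_atTop.comp tendsto_natCast_atTop_atTop
    have := h1.const_div_atTop (4 : ℝ)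
    simpa using this.const_add 1
  refine tendsto_of_tendsto_of_tendsto_of_le_of_le' t1 t2 ?_ ?_
  · filter_upwards [eventually_ge_atTop 1100000] with n hn
    have hpos : (0 : ℝ) < n := by
      have : 0 < n := by omega
      exact_mod_cast this
    rw [Pi.div_apply, le_div_iff₀ hpos]
    have := hlow n hn
    field_simp
    linarith
  · filter_upwards [eventually_ge_atTop 1100000] with n hn
    have hpos : (0 : ℝ) < n := by
      have : 0 < n := by omega
      exact_mod_cast this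
    have hsq : √(n : ℝ) * √(n : ℝ) = n := Real.mul_self_sqrt hpos.le
    have hsp : 0 < √(n : ℝ) := Real.sqrt_pos.2 hpos
    rw [Pi.div_apply, div_le_iff₀ hpos]
    have h1 := upper_bound n hn
    have h2 : (1 + 4 / √(n : ℝ)) * n = n + 4 * √(n : ℝ) := by
      rw [add_mul, one_mul]
      congr 1
      rw [div_mul_eq_mul_div, div_eq_iff hsp.ne', mul_assoc, hsq]
    rw [h2]
    exact h1

end Pool.Agent.Results.MP_8f05cb_co.SparsePST
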